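import Pool.Agent.W805.LR.Stm5
import Pool.Agent.W805.LR.Basic

/-!
# Pigeonhole for the scales
-/

set_option autoImplicit false

namespace Pool.Agent.W374.PD.PH

open Finset Equiv Filter Topology
open Pool.Agent.W805.LR Pool.Agent.W805.PD

lemma sumB (I : ℕ) : ∀ a : ℝ, 0 < a →
    ∑ j ∈ range I, min (1 / (2 ^ j * a)) (2 ^ j * a) ≤ 2 / a := by
  induction I with
  | zero => intro a ha; simp; positivity
  | succ I ih =>
    intro a ha
    rw [Finset.sum_range_succ']
    have h1 : ∀ j : ℕ, min (1 / ((2:ℝ) ^ (j + 1) * a)) (2 ^ (j + 1) * a) =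
        min (1 / (2 ^ j * (2 * a))) (2 ^ j * (2 * a)) := fun j => by
      rw [pow_succ, mul_assoc]
    simp_rw [h1]
    have h2 := ih (2 * a) (by positivity)
    have h3 : min (1 / ((2:ℝ) ^ 0 * a)) (2 ^ 0 * a) ≤ 1 / a := by
      refine (min_le_left _ _).trans ?_
      simp
    have h4 : 2 / (2 * a) + 1 / a = 2 / a := by field_simp; norm_num
    linarith

lemma sumA (I : ℕ) : ∀ a : ℝ, 0 < a → a ≤ 1 →
    ∑ j ∈ range I, min (1 / (2 ^ j * a)) (2 ^ j * a) ≤ 3 - a := by
  induction I with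
  | zero => intro a ha h1; simp; linarith
  | succ I ih =>
    intro a ha ha1
    rw [Finset.sum_range_succ']
    have h1 : ∀ j : ℕ, min (1 / ((2:ℝ) ^ (j + 1) * a)) (2 ^ (j + 1) * a) =
        min (1 / (2 ^ j * (2 * a))) (2 ^ j * (2 * a)) := fun j => by
      rw [pow_succ, mul_assoc]
    simp_rw [h1]
    have h3 : min (1 / ((2:ℝ) ^ 0 * a)) (2 ^ 0 * a) ≤ a := by
      refine (min_le_right _ _).trans ?_
      simp
    rcases le_or_gt a (1 / 2) with h | h
    · have h2 := ih (2 * a) (by positivity) (by linarith)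
      linarith
    · have h2 := sumB I (2 * a) (by positivity)
      have h4 : 2 / (2 * a) ≤ 3 - 2 * a := by
        rw [div_le_iff₀ (by positivity)]
        nlinarith
      linarith

lemma sumC (I : ℕ) (a : ℝ) (ha : 0 < a) :
    ∑ j ∈ range I, min (1 / (2 ^ j * a)) (2 ^ j * a) ≤ 3 := by
  rcases le_or_gt a 1 with h | h
  · have := sumA I a ha h
    linarith
  · have h1 := sumB I a ha
    have h2 : 2 / a ≤ 2 := by
      rw [div_le_iff₀ ha]; linarith
    linarith

lemma len_pos {V : Type} [Fintype V] [DecidableEq V] (g : Perm V) (v : V) : 0 < len g v :=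
  lt_of_lt_of_le one_pos (one_le_len g v)

lemma pc_pos {V : Type} [Fintype V] [DecidableEq V] (g : Perm V) (v : V) : 0 < pc g v := by
  unfold pc
  have : 0 < Fintype.card V := Fintype.card_pos_iff.mpr ⟨v⟩
  have h2 := len_pos g v
  positivity

lemma sum_zeta {V : Type} [Fintype V] [DecidableEq V] (g : Perm V) (i0 I : ℕ) :
    ∑ j ∈ range I, zeta g (2 ^ (i0 + j)) ≤ 3 := by
  unfold zeta uavg
  rw [← Finset.sum_div, Finset.sum_comm]
  rcases isEmpty_or_nonempty V with hV | hV
  · simp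
  have hc : (0 : ℝ) < Fintype.card V := by exact_mod_cast Fintype.card_pos
  rw [div_le_iff₀ hc]
  calc ∑ v : V, ∑ j ∈ range I, min (1 / (((2 ^ (i0 + j) : ℕ) : ℝ) * pc g v))
        (((2 ^ (i0 + j) : ℕ) : ℝ) * pc g v)
      ≤ ∑ v : V, (3 : ℝ) := by
        refine Finset.sum_le_sum fun v _ => ?_
        have h := sumC I (2 ^ i0 * pc g v) (by have := pc_pos g v; positivity)
        refine le_trans (le_of_eq ?_) h
        refine Finset.sum_congr rfl fun j _ => ?_
        have : (((2 ^ (i0 + j) : ℕ) : ℝ) * pc g v) = 2 ^ j * (2 ^ i0 * pc g v) := by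
          push_cast; ring
        rw [this]
    _ = 3 * Fintype.card V := by simp [mul_comm]

/-- PH: pigeonhole for the scales. -/
theorem main : S_pigeon := by
  intro I i0 V _ _ P hI hP
  have h1 : ∑ j ∈ range I, ∑ g, P g * zeta g (2 ^ (i0 + j)) ≤ 3 * ∑ g, P g := by
    rw [Finset.sum_comm, Finset.mul_sum]
    refine Finset.sum_le_sum fun g _ => ?_
    rw [← Finset.mul_sum, mul_comm 3]
    exact mul_le_mul_of_nonneg_left (sum_zeta g i0 I) (hP g)
  have h2 : ∑ j ∈ range I, ∑ g, P g * zeta g (2 ^ (i0 + j)) ≤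
      ∑ _j ∈ range I, 3 / (I : ℝ) * ∑ g, P g := by
    refine h1.trans (le_of_eq ?_)
    rw [Finset.sum_const, Finset.card_range, nsmul_eq_mul]
    have : (I : ℝ) ≠ 0 := by exact_mod_cast hI.ne'
    field_simp
  obtain ⟨j, hj, hle⟩ := Finset.exists_le_of_sum_le (Finset.nonempty_range_iff.mpr hI.ne') h2
  exact ⟨i0 + j, by omega, by have := Finset.mem_range.mp hj; omega, hle⟩

end Pool.Agent.W374.PD.PH
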